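import Pool.Agent.H27.TM.TargetsG
import Pool.Agent.H27.TM.TargetsL
import Pool.Agent.H31.SW.TargetsG
import Pool.Agent.H31.SW.Tools
import Pool.Agent.H29.DW.Tools

/-!
# The sums over the dual lattice
-/

set_option autoImplicit false

open NumberField NumberField.InfinitePlace NumberField.Units
  NumberField.Units.dirichletUnitTheorem MeasureTheory Set Filter Complex
open scoped nonZeroDivisors ENNReal

namespace Pool.Agent.H63.TMB.PS

open Pool.Agent.H25.HK Pool.Agent.H23.LB Pool.Agent.H23.LC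
open Pool.Agent.H28.RC (Rep ft idl)
open Pool.Agent.H29.DW (dg Rl lf wv Pos Wg cpar Ci om zs rv Wt dg_rv Rl_wv wv_zero norm_wv
  card_places_le mult_pos')
open Pool.Agent.H31.SW (EE itg FF HD DB DS dif Pf GG G2 DD PP pF dK pz ps Tf WG)
open Pool.Agent.H27.TM

theorem Am_mono {n m : ℕ} {C : ℝ} {r : Bool} {Q : ℂ → ℂ} (h : Am m C r Q) (hn : n ≤ m) :
    Am n C r Q := by
  obtain ⟨t₀, h1, h2, h3, h4⟩ := h
  exact ⟨t₀, h1, h2, h3, Pool.Agent.H31.SW.DB.of_le h4 hn⟩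

/-- summing over a lattice with a separate bound at `0` -/
theorem norm_tsum_le {K : Type} [Field K] [NumberField K] (L : FI K) (f : K → ℂ) (A B : ℝ)
    (w : K → ℝ) (h0 : ‖f 0‖ ≤ A) (hw : ∀ x ∈ L, x ≠ 0 → ‖f x‖ ≤ B * w x)
    (hs : Summable (fun x : {x : K // x ∈ L ∧ x ≠ 0} => w x.1)) :
    ‖∑' x : {x : K // x ∈ L}, f x‖ ≤ A + B * ∑' x : {x : K // x ∈ L ∧ x ≠ 0}, w x.1 := by
  classical
  obtain ⟨z0, hz0⟩ : ∃ z0 : {x : K // x ∈ L}, z0.1 = 0 := ⟨⟨0, L.zero_mem⟩, rfl⟩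
  have h1 : HasSum (fun x : {x : K // x ∈ L} => if x = z0 then A else 0) A :=
    hasSum_ite_eq z0 A
  obtain ⟨i, hi1⟩ : ∃ i : {x : K // x ∈ L ∧ x ≠ 0} → {x : K // x ∈ L}, ∀ x, (i x).1 = x.1 :=
    ⟨fun x => ⟨x.1, x.2.1⟩, fun x => rfl⟩
  have hi : Function.Injective i := by
    intro a b hab
    have h5 := congrArg Subtype.val hab
    rw [hi1, hi1] at h5
    exact Subtype.ext h5
  have h2 : HasSum (fun x : {x : K // x ∈ L} => if x.1 = 0 then 0 else B * w x.1)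
      (B * ∑' x : {x : K // x ∈ L ∧ x ≠ 0}, w x.1) := by
    refine (Function.Injective.hasSum_iff hi ?_).1 ?_
    · intro x hx
      by_cases hx0 : x.1 = 0
      · simp [hx0]
      · exact absurd ⟨⟨x.1, x.2, hx0⟩, Subtype.ext (hi1 _)⟩ hx
    · have h3 := hs.hasSum.mul_left B
      have h4 : ((fun x : {x : K // x ∈ L} => if x.1 = 0 then (0 : ℝ) else B * w x.1) ∘ i) =
          fun x : {x : K // x ∈ L ∧ x ≠ 0} => B * w x.1 := by
        funext x
        show (if (i x).1 = 0 then (0 : ℝ) else B * w (i x).1) = B * w x.1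
        rw [hi1, if_neg x.2.2]
      rw [h4]
      exact h3
  refine tsum_of_norm_bounded (h1.add h2) ?_
  intro x
  by_cases hx : x = z0
  · have h5 : x.1 = 0 := by rw [hx, hz0]
    rw [if_pos hx, if_pos h5, h5, add_zero]
    exact h0
  · have h5 : x.1 ≠ 0 := by
      intro h6
      exact hx (Subtype.ext (by rw [h6, hz0]))
    rw [if_neg hx, if_neg h5, zero_add]
    exact hw x.1 x.2 h5

/-- the local bound of the decay -/
theorem decay {m : ℝ} {k n : ℕ} {A B X : ℝ} {e1 e2 : ℝ} (hX : 1 ≤ X) (hm : 0 ≤ m)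
    (hk : n + 1 ≤ k) (hA : 0 ≤ A) (hB : 0 ≤ B) (he2 : 0 ≤ e2)
    (h1 : e1 ≤ A * (1 + m / X) ^ (-(k : ℝ))) (h2 : e2 ≤ B) :
    e1 * e2 ≤ A * B * X ^ (k : ℝ) * (1 + m) ^ (-(n + 1 : ℝ)) := by
  have X0 : 0 < X := by linarith
  have a1 : (1 + m) / X ≤ 1 + m / X := by
    rw [div_le_iff₀ X0, add_mul, div_mul_cancel₀ _ X0.ne']
    linarith
  have a2 : 0 < (1 + m) / X := by positivity
  have a3 : (1 + m / X) ^ (-(k : ℝ)) ≤ ((1 + m) / X) ^ (-(k : ℝ)) :=
    Real.rpow_le_rpow_of_nonpos a2 a1 (by simp)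
  have a4 : ((1 + m) / X) ^ (-(k : ℝ)) = X ^ (k : ℝ) * (1 + m) ^ (-(k : ℝ)) := by
    rw [Real.div_rpow (by linarith) X0.le, Real.rpow_neg X0.le]
    field_simp
  have a5 : (1 + m) ^ (-(k : ℝ)) ≤ (1 + m) ^ (-(n + 1 : ℝ)) := by
    refine Real.rpow_le_rpow_of_exponent_le (by linarith) ?_
    have : ((n + 1 : ℕ) : ℝ) ≤ k := by exact_mod_cast hk
    push_cast at this
    linarith
  have a6 : (1 + m / X) ^ (-(k : ℝ)) ≤ X ^ (k : ℝ) * (1 + m) ^ (-(n + 1 : ℝ)) := by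
    rw [a4] at a3
    exact a3.trans (mul_le_mul_of_nonneg_left a5 (by positivity))
  have a7 : 0 ≤ A * (1 + m / X) ^ (-(k : ℝ)) := by positivity
  calc e1 * e2 ≤ (A * (1 + m / X) ^ (-(k : ℝ))) * B :=
        mul_le_mul h1 h2 he2 a7
    _ ≤ (A * (X ^ (k : ℝ) * (1 + m) ^ (-(n + 1 : ℝ)))) * B := by
        refine mul_le_mul_of_nonneg_right ?_ hB
        exact mul_le_mul_of_nonneg_left a6 hA
    _ = A * B * X ^ (k : ℝ) * (1 + m) ^ (-(n + 1 : ℝ)) := by ring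

/-- `∏ X ^ (-e/2) = PP(X) ^ (-1/2)` -/
theorem prod_dg {K : Type} [Field K] [NumberField K] (X : InfinitePlace K → ℝ)
    (hX : ∀ v, 0 < X v) :
    ∏ v : InfinitePlace K, X v ^ (-(dg (rv v) : ℝ) / 2) = PP X ^ (-(1 / 2) : ℝ) := by
  unfold PP
  rw [← Real.finsetProd_rpow _ _ (fun v _ => by have := hX v; positivity)]
  refine Finset.prod_congr rfl fun v _ => ?_
  rw [dg_rv, ← Real.rpow_natCast (X v) v.mult, ← Real.rpow_mul (hX v).le]
  congr 1
  ring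

/-- the identity of (PO) with the correlation integrals -/
theorem poisson (hPO : Pool.Agent.H31.SW.W_PO) (hCF : M_CF) (hE1 : M_E1) (hNL : M_NL)
    {K : Type} [Field K] [NumberField K] {k : ℕ} {C₁ : ℝ} (hC₁ : 0 ≤ C₁)
    (hk : Module.finrank ℚ K + 5 ≤ k) (α : InfinitePlace K → ℝ)
    (c c' : InfinitePlace K → ℂ) (Q : InfinitePlace K → ℂ → ℂ)
    (hα : ∀ v, 0 < α v ∧ α v ≤ 1 / 10000) (hc : ∀ v, Rl (rv v) (c v))
    (hc' : ∀ v, Rl (rv v) (c' v))
    (hQ : ∀ v, Am (k + 3) C₁ (rv v) (Q v)) :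
    ∑' x : {x : K // x ∈ ((Ideal.span {(2 : 𝓞 K)} : Ideal (𝓞 K)) : FI K)},
      pF (fun v => Cr (rv v) (α v) (c v) (c' v) (Q v)) (fun v => 2 * Real.log (α v))
        (fun _ => 1) (0 + x) =
      ((DD ((Ideal.span {(2 : 𝓞 K)} : Ideal (𝓞 K)) : FI K) (fun v => 2 * Real.log (α v)) /
        Real.sqrt (dK K) : ℝ) : ℂ) *
      ∑' ν : {ν : K // ν ∈ NN K}, Ep α Q c ν * (starRingEnd ℂ) (Ep α Q c' ν) := by
  classical
  obtain ⟨n, hn⟩ : ∃ n, n = Module.finrank ℚ K := ⟨_, rfl⟩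
  obtain ⟨-, hL2, -, -, -⟩ := hNL K
  have hP : Pos (fun _ : InfinitePlace K => (1 : ℂ)) :=
    ⟨fun v => norm_one, fun v _ => Complex.one_im⟩
  have hcf : ∀ v, Continuous (Cr (rv v) (α v) (c v) (c' v) (Q v)) ∧
      (∀ u : ℂ, 1 / 1000 < ‖u‖ → Cr (rv v) (α v) (c v) (c' v) (Q v) u = 0) ∧
      ∀ m : ℂ, El (rv v) (α v) (c v) (Q v) m * (starRingEnd ℂ) (El (rv v) (α v) (c' v) (Q v) m) =
        FF (rv v) (Cr (rv v) (α v) (c v) (c' v) (Q v)) m := fun v =>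
    hCF (rv v) (α v) (c v) (c' v) (Q v) C₁ (hα v).1 (hα v).2 (Am_mono (hQ v) (by omega))
  obtain ⟨E, hE0, hE⟩ := hE1 (k + 3)
  have hdec : ∃ C : ℝ, ∀ v ξ, Rl (rv v) ξ →
      ‖FF (rv v) (Cr (rv v) (α v) (c v) (c' v) (Q v)) ξ‖ ≤
        C * (1 + ‖ξ‖) ^ (-(Module.finrank ℚ K + 1 : ℝ)) := by
    refine ⟨∑ v : InfinitePlace K, E * C₁ * (E * C₁) *
      max 1 (α v * ‖c v‖) ^ ((k + 3 : ℕ) : ℝ), ?_⟩
    intro v ξ hξ
    have b1 := (hE (rv v) (α v) (c v) ξ (Q v) C₁ (hα v).1 (hα v).2 (hc v) hξ hC₁ (hQ v)).1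
    have b2 := (hE (rv v) (α v) (c' v) ξ (Q v) C₁ (hα v).1 (hα v).2 (hc' v) hξ hC₁ (hQ v)).1
    have b3 : ‖El (rv v) (α v) (c' v) (Q v) ξ‖ ≤ E * C₁ := by
      refine b2.trans ?_
      have b4 : (1 + ‖ξ‖ / max 1 (α v * ‖c' v‖)) ^ (-((k + 3 : ℕ) : ℝ)) ≤ 1 := by
        refine Real.rpow_le_one_of_one_le_of_nonpos ?_ (neg_nonpos.2 (Nat.cast_nonneg _))
        have : 0 ≤ ‖ξ‖ / max 1 (α v * ‖c' v‖) := by positivity
        linarith
      calc E * C₁ * (1 + ‖ξ‖ / max 1 (α v * ‖c' v‖)) ^ (-((k + 3 : ℕ) : ℝ)) ≤ E * C₁ * 1 :=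
            mul_le_mul_of_nonneg_left b4 (by positivity)
        _ = E * C₁ := mul_one _
    rw [← (hcf v).2.2 ξ, norm_mul, RCLike.norm_conj]
    have b5 := decay (m := ‖ξ‖) (k := k + 3) (n := Module.finrank ℚ K) (A := E * C₁)
      (B := E * C₁) (X := max 1 (α v * ‖c v‖)) (le_max_left _ _) (norm_nonneg _) (by omega)
      (by positivity) (by positivity) (norm_nonneg _) b1 b3
    refine b5.trans ?_
    refine mul_le_mul_of_nonneg_right ?_ (by positivity)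
    exact Finset.single_le_sum
      (f := fun v : InfinitePlace K => E * C₁ * (E * C₁) *
        max 1 (α v * ‖c v‖) ^ ((k + 3 : ℕ) : ℝ)) (fun w _ => by positivity) (Finset.mem_univ v)
  have h1 := (hPO K ((Ideal.span {(2 : 𝓞 K)} : Ideal (𝓞 K)) : FI K) 0
    (fun v => Cr (rv v) (α v) (c v) (c' v) (Q v)) hL2 (fun v => (hcf v).1)
    ⟨1 / 1000, fun v w hw => (hcf v).2.1 w hw⟩ hdec (fun v => 2 * Real.log (α v))
    (fun _ => 1) hP).2
  rw [h1]
  congr 1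
  refine tsum_congr fun ν => ?_
  have h2 : ca K 0 ν.1 = 1 := by
    unfold ca
    rw [zero_mul, map_zero]
    simp
  rw [h2, one_mul]
  unfold Ep
  rw [map_prod, ← Finset.prod_mul_distrib]
  refine Finset.prod_congr rfl fun v _ => ?_
  rw [(hcf v).2.2]
  congr 1
  unfold mc wv
  have h3 : Real.exp ((-fun v : InfinitePlace K => 2 * Real.log (α v)) v / 2) = (α v)⁻¹ := by
    rw [Pi.neg_apply]
    rw [show -(2 * Real.log (α v)) / 2 = -Real.log (α v) by ring, Real.exp_neg,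
      Real.exp_log (hα v).1]
  rw [h3, map_one]
  push_cast
  ring

theorem DD_eq {K : Type} [Field K] [NumberField K] (hNL : M_NL) (α : InfinitePlace K → ℝ)
    (hα : ∀ v, 0 < α v) :
    DD ((Ideal.span {(2 : 𝓞 K)} : Ideal (𝓞 K)) : FI K) (fun v => 2 * Real.log (α v)) =
      1 / (PP α * 2 ^ Module.finrank ℚ K) := by
  obtain ⟨-, -, -, h, -⟩ := hNL K
  rw [h]
  have h1 : Real.exp (-(∑ v : InfinitePlace K, (v.mult : ℝ) * (2 * Real.log (α v))) / 2) =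
      (PP α)⁻¹ := by
    have h2 : -(∑ v : InfinitePlace K, (v.mult : ℝ) * (2 * Real.log (α v))) / 2 =
        -∑ v : InfinitePlace K, (v.mult : ℝ) * Real.log (α v) := by
      rw [← Finset.sum_neg_distrib, ← Finset.sum_neg_distrib, Finset.sum_div]
      refine Finset.sum_congr rfl fun v _ => ?_
      ring
    rw [h2, Real.exp_neg, Real.exp_sum]
    unfold PP
    congr 1
    refine Finset.prod_congr rfl fun v _ => ?_
    rw [mul_comm, Real.exp_mul, Real.exp_log (hα v), Real.rpow_natCast]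
  rw [h1]
  field_simp

theorem pf_PS (hPO : Pool.Agent.H31.SW.W_PO) (hCF : M_CF) (hCB : M_CB) (hE1 : M_E1)
    (hWZ : M_WZ) (hNL : M_NL) : M_PS := by
  classical
  intro n k C₁ hn0 hk hC₁
  obtain ⟨B, hB0, hB⟩ := hCB k
  obtain ⟨Z, hZ1, hZ⟩ := hWZ n hn0
  obtain ⟨M, hM⟩ : ∃ M, M = max 1 (B * C₁ ^ 2) := ⟨_, rfl⟩
  have M1 : 1 ≤ M := by rw [hM]; exact le_max_left _ _
  have MB : B * C₁ ^ 2 ≤ M := by rw [hM]; exact le_max_right _ _
  refine ⟨M ^ n * (2 ^ n + Z), by positivity, ?_⟩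
  intro K _ _ hn α τ c c' Q hα hc hc' hQ
  have α0 : ∀ v, 0 < α v := fun v => (hα v).1
  have hP : Pos (fun _ : InfinitePlace K => (1 : ℂ)) :=
    ⟨fun v => norm_one, fun v _ => Complex.one_im⟩
  have h1 := poisson hPO hCF hE1 hNL hC₁ (by rw [hn]; exact hk) α c c' Q hα hc.real hc'.real hQ
  rw [DD_eq hNL α α0, hn] at h1
  obtain ⟨-, hL2, -, -, -⟩ := hNL K
  have th0 : ∀ v, 0 < th1 α c c' v := by
    intro v
    unfold th1
    have := α0 v
    positivity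
  have bt0 : ∀ v, 0 < bt α τ v := fun v => lt_of_lt_of_le one_pos (le_max_left _ _)
  have PPα : 0 < PP α := Finset.prod_pos fun v _ => pow_pos (α0 v) _
  have PPt : 0 < PP (th1 α c c') := Finset.prod_pos fun v _ => pow_pos (th0 v) _
  have PPb : 0 < PP (bt α τ) := Finset.prod_pos fun v _ => pow_pos (bt0 v) _
  have dK0 : 0 < dK K := by
    unfold dK
    have : (discr K : ℝ) ≠ 0 := by exact_mod_cast discr_ne_zero K
    positivity
  -- the bounds
  have hloc : ∀ v u, Rl (rv v) u → ‖Cr (rv v) (α v) (c v) (c' v) (Q v) u‖ ≤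
      M * (th1 α c c' v ^ (-(dg (rv v) : ℝ) / 2) *
        (1 + ‖u‖ / (th1 α c c' v / bt α τ v)) ^ (-(k : ℝ))) := by
    intro v u hu
    have b1 := (hB (rv v) (α v) (τ v) (c v) (c' v) u (Q v) C₁ (α0 v) (hα v).2 (hc.one v)
      (hc.low v) (hc.upp v) (hc.real v) (hc'.real v) hu hC₁ (hQ v)).1
    have b2 : max 1 (α v * τ v) * ‖u‖ / (1 + α v * ‖c v - c' v‖) =
        ‖u‖ / (th1 α c c' v / bt α τ v) := by
      have := th0 v
      have := bt0 v
      unfold th1 bt at *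
      field_simp
    rw [b2] at b1
    refine b1.trans ?_
    have := th0 v
    have := bt0 v
    rw [mul_assoc]
    refine mul_le_mul_of_nonneg_right MB ?_
    unfold th1 at *
    positivity
  have hloc0 : ∀ v, ‖Cr (rv v) (α v) (c v) (c' v) (Q v) 0‖ ≤
      M * th1 α c c' v ^ (-(k : ℝ)) := by
    intro v
    have b1 := (hB (rv v) (α v) (τ v) (c v) (c' v) 0 (Q v) C₁ (α0 v) (hα v).2 (hc.one v)
      (hc.low v) (hc.upp v) (hc.real v) (hc'.real v) (Pool.Agent.H31.SW.Rl_zero _) hC₁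
      (hQ v)).2
    refine b1.trans ?_
    have := th0 v
    refine mul_le_mul_of_nonneg_right MB ?_
    unfold th1 at *
    positivity
  have hcard : Fintype.card (InfinitePlace K) ≤ n := card_places_le hn
  have hMn : ∏ _v : InfinitePlace K, M ≤ M ^ n := by
    rw [Finset.prod_const]
    exact pow_le_pow_right₀ M1 hcard
  have hb0 : ‖pF (fun v => Cr (rv v) (α v) (c v) (c' v) (Q v)) (fun v => 2 * Real.log (α v))
        (fun _ => 1) (0 + (0 : K))‖ ≤ M ^ n * ∏ v : InfinitePlace K, th1 α c c' v ^ (-(k : ℝ)) := by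
    unfold pF
    rw [norm_prod]
    calc ∏ v : InfinitePlace K, ‖Cr (rv v) (α v) (c v) (c' v) (Q v)
          (wv v (0 + (0 : K)) (fun v => 2 * Real.log (α v)) (fun _ => 1))‖ ≤
          ∏ v : InfinitePlace K, M * th1 α c c' v ^ (-(k : ℝ)) := by
            refine Finset.prod_le_prod (fun v _ => norm_nonneg _) fun v _ => ?_
            rw [add_zero, wv_zero]
            exact hloc0 v
      _ = (∏ _v : InfinitePlace K, M) * ∏ v : InfinitePlace K, th1 α c c' v ^ (-(k : ℝ)) :=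
          Finset.prod_mul_distrib
      _ ≤ _ := by
          refine mul_le_mul_of_nonneg_right hMn ?_
          exact Finset.prod_nonneg fun v _ => by have := th0 v; positivity
  have hb1 : ∀ x ∈ ((Ideal.span {(2 : 𝓞 K)} : Ideal (𝓞 K)) : FI K), x ≠ 0 →
      ‖pF (fun v => Cr (rv v) (α v) (c v) (c' v) (Q v)) (fun v => 2 * Real.log (α v))
        (fun _ => 1) (0 + x)‖ ≤ M ^ n * PP (th1 α c c') ^ (-(1 / 2) : ℝ) *
        ∏ v : InfinitePlace K, (1 + ‖wv v x (fun v => 2 * Real.log (α v)) (fun _ => 1)‖ /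
          (fun v => th1 α c c' v / bt α τ v) v) ^ (-(k : ℝ)) := by
    intro x _ _
    unfold pF
    rw [norm_prod]
    calc ∏ v : InfinitePlace K, ‖Cr (rv v) (α v) (c v) (c' v) (Q v)
          (wv v (0 + x) (fun v => 2 * Real.log (α v)) (fun _ => 1))‖ ≤
          ∏ v : InfinitePlace K, M * (th1 α c c' v ^ (-(dg (rv v) : ℝ) / 2) *
            (1 + ‖wv v x (fun v => 2 * Real.log (α v)) (fun _ => 1)‖ /
              (th1 α c c' v / bt α τ v)) ^ (-(k : ℝ))) := by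
            refine Finset.prod_le_prod (fun v _ => norm_nonneg _) fun v _ => ?_
            rw [zero_add]
            exact hloc v _ (Rl_wv v x _ hP)
      _ = (∏ _v : InfinitePlace K, M) * (PP (th1 α c c') ^ (-(1 / 2) : ℝ) *
          ∏ v : InfinitePlace K, (1 + ‖wv v x (fun v => 2 * Real.log (α v)) (fun _ => 1)‖ /
            (th1 α c c' v / bt α τ v)) ^ (-(k : ℝ))) := by
          rw [Finset.prod_mul_distrib, Finset.prod_mul_distrib, prod_dg _ th0]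
      _ ≤ M ^ n * (PP (th1 α c c') ^ (-(1 / 2) : ℝ) *
          ∏ v : InfinitePlace K, (1 + ‖wv v x (fun v => 2 * Real.log (α v)) (fun _ => 1)‖ /
            (th1 α c c' v / bt α τ v)) ^ (-(k : ℝ))) := by
          refine mul_le_mul_of_nonneg_right hMn ?_
          refine mul_nonneg (by positivity) ?_
          exact Finset.prod_nonneg fun v _ => by
            have := th0 v
            have := bt0 v
            positivity
      _ = _ := by rw [mul_assoc]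
  have J0 : ∀ v, 0 < (fun v => th1 α c c' v / bt α τ v) v := fun v => div_pos (th0 v) (bt0 v)
  have hz := hZ K hn ((Ideal.span {(2 : 𝓞 K)} : Ideal (𝓞 K)) : FI K)
    (fun v => 2 * Real.log (α v)) (fun _ => 1) (fun v => th1 α c c' v / bt α τ v) k hL2 hP J0
    (by omega)
  have h2 := norm_tsum_le ((Ideal.span {(2 : 𝓞 K)} : Ideal (𝓞 K)) : FI K)
    (fun x => pF (fun v => Cr (rv v) (α v) (c v) (c' v) (Q v)) (fun v => 2 * Real.log (α v))
        (fun _ => 1) (0 + x)) _ _ _ hb0 hb1 hz.1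
  have hJ : PP (fun v => th1 α c c' v / bt α τ v) = PP (th1 α c c') / PP (bt α τ) := by
    unfold PP
    rw [← Finset.prod_div_distrib]
    exact Finset.prod_congr rfl fun v _ => div_pow _ _ _
  have h3 : ‖∑' x : {x : K // x ∈ ((Ideal.span {(2 : 𝓞 K)} : Ideal (𝓞 K)) : FI K)},
      pF (fun v => Cr (rv v) (α v) (c v) (c' v) (Q v)) (fun v => 2 * Real.log (α v))
        (fun _ => 1) (0 + x)‖ ≤ M ^ n * (∏ v : InfinitePlace K, th1 α c c' v ^ (-(k : ℝ))) +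
      M ^ n * PP (th1 α c c') ^ (-(1 / 2) : ℝ) *
        (Z * (1 / (PP α * 2 ^ n) * (PP (th1 α c c') / PP (bt α τ)))) := by
    refine h2.trans ?_
    have h4 := hz.2
    rw [DD_eq hNL α α0, hn, hJ] at h4
    gcongr
  rw [h1, norm_mul, Complex.norm_real, Real.norm_eq_abs,
    abs_of_pos (by positivity)] at h3
  obtain ⟨S, hS⟩ : ∃ S, S = ‖∑' ν : {ν : K // ν ∈ NN K},
    Ep α Q c ν * (starRingEnd ℂ) (Ep α Q c' ν)‖ := ⟨_, rfl⟩
  obtain ⟨T, hT⟩ : ∃ T, T = ∏ v : InfinitePlace K, th1 α c c' v ^ (-(k : ℝ)) := ⟨_, rfl⟩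
  have T0 : 0 ≤ T := by
    rw [hT]
    exact Finset.prod_nonneg fun v _ => by have := th0 v; positivity
  rw [← hS, ← hT] at h3
  rw [← hS, ← hT]
  obtain ⟨X, hX⟩ : ∃ X, X = PP (th1 α c c') := ⟨_, rfl⟩
  obtain ⟨Y, hY⟩ : ∃ Y, Y = PP (bt α τ) := ⟨_, rfl⟩
  obtain ⟨a, ha⟩ : ∃ a, a = PP α := ⟨_, rfl⟩
  obtain ⟨D, hD⟩ : ∃ D, D = Real.sqrt (dK K) := ⟨_, rfl⟩
  have D0 : 0 < D := by rw [hD]; exact Real.sqrt_pos.2 dK0
  rw [← hX, ← hY, ← ha, ← hD] at h3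
  rw [← hX, ← hY, ← ha, ← hD]
  rw [← hX] at PPt
  rw [← hY] at PPb
  rw [← ha] at PPα
  have hXX : X ^ (-(1 / 2) : ℝ) * X = X ^ (1 / 2 : ℝ) := by
    rw [← Real.rpow_add_one PPt.ne']
    norm_num
  have h5 : S = (a * 2 ^ n * D) * (1 / (a * 2 ^ n) / D * S) := by
    field_simp
  have h6 : S ≤ (a * 2 ^ n * D) * (M ^ n * T + M ^ n * X ^ (-(1 / 2) : ℝ) *
      (Z * (1 / (a * 2 ^ n) * (X / Y)))) := by
    rw [h5]
    exact mul_le_mul_of_nonneg_left h3 (by positivity)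
  have h7 : (a * 2 ^ n * D) * (M ^ n * T + M ^ n * X ^ (-(1 / 2) : ℝ) *
      (Z * (1 / (a * 2 ^ n) * (X / Y)))) = M ^ n * D * (2 ^ n * (a * T) + Z *
        (X ^ (1 / 2 : ℝ) / Y)) := by
    rw [← hXX]
    field_simp
  rw [h7] at h6
  refine h6.trans ?_
  have p1 : 0 ≤ a * T := by positivity
  have p2 : 0 ≤ X ^ (1 / 2 : ℝ) / Y := by positivity
  have p3 : 2 ^ n * (a * T) + Z * (X ^ (1 / 2 : ℝ) / Y) ≤
      (2 ^ n + Z) * (a * T + X ^ (1 / 2 : ℝ) / Y) := by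
    have q1 : 0 ≤ Z * (a * T) := by positivity
    have q2 : 0 ≤ (2 : ℝ) ^ n * (X ^ (1 / 2 : ℝ) / Y) := by positivity
    linarith
  calc M ^ n * D * (2 ^ n * (a * T) + Z * (X ^ (1 / 2 : ℝ) / Y)) ≤
        M ^ n * D * ((2 ^ n + Z) * (a * T + X ^ (1 / 2 : ℝ) / Y)) :=
        mul_le_mul_of_nonneg_left p3 (by positivity)
    _ = _ := by ring

end Pool.Agent.H63.TMB.PS
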